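import Pool.Agent.W2helper43.BD.Stm

set_option autoImplicit false

namespace Pool.Agent.W2helper85.BD

open Pool.Agent.W2helper43.BD

/-- Piece COEF -/
theorem p_coef : P_COEF := by
  intro Λ V G Γ _ _ _ _ _ D b
  classical
  have : Fintype V := Fintype.ofFinite V
  have hι : ∀ g, (D.ι b).coeff (D.iG g) = b.coeff g := by
    intro g
    exact Finsupp.mapDomain_apply D.injG _ _
  have hι0 : ∀ γ, (∀ g, γ ≠ D.iG g) → (D.ι b).coeff γ = 0 := by
    intro γ h
    refine Finsupp.mapDomain_of_notMem_range _ _ ?_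
    rintro ⟨g, hg⟩
    exact h g hg.symm
  have hf : ∀ γ, (D.f b).coeff γ = ∑ v : V, (D.ι b).coeff (γ * (D.iV v)⁻¹) * (D.c * D.θ v⁻¹) := by
    intro γ
    rw [Dat.f, D.e_eq, Finset.mul_sum, MonoidAlgebra.coeff_sum, Finsupp.finsetSum_apply]
    refine Finset.sum_congr rfl fun v _ => ?_
    rw [MonoidAlgebra.coeff_mul_single_apply]
  refine ⟨?_, ?_⟩
  · intro g v
    rw [hf, Finset.sum_eq_single v]
    · rw [mul_assoc (D.iG g), mul_inv_cancel, mul_one, hι]
    · intro v' _ hv'
      rw [hι0, zero_mul]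
      intro g' h
      apply hv'
      have h1 : D.iV (v * v'⁻¹) = D.iG (g⁻¹ * g') := by
        rw [map_mul, map_inv, map_mul, map_inv, ← h]
        group
      have h2 := D.disj _ _ h1
      rw [h2, map_one, ← map_one D.iV] at h1
      have h3 := D.injV h1
      exact (mul_inv_eq_one.1 h3).symm
    · intro h
      exact absurd (Finset.mem_univ _) h
  · intro γ hγ
    rw [hf]
    refine Finset.sum_eq_zero fun v _ => ?_
    rw [hι0, zero_mul]
    intro g h
    apply hγ
    have h1 : γ = D.iG g * D.iV v := by rw [← h]; group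
    rw [h1]
    exact D.I.mul_mem ⟨1, g, by simp⟩ ⟨v, 1, by simp⟩

end Pool.Agent.W2helper85.BD
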